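import Pool.Agent.Run7.h281.ApA

/-!
`MP_a70c31_an`: the bound `0.589` for functions whose central index has eventually constant jumps
(for example `a n ≠ 0`, `|a n| ^ 2 ≥ |a (n - 1) a (n + 1)|` for all large `n`).

The known lower bounds for the constant of the problem come from theta series
`∑ p ^ (k (k - 1) / 2) z ^ k`, which belong to this class (jumps `1`).

Proof.  After averaging over the `d`-th roots of unity only the coefficients with indices `n₀ + d j`
matter.  At a vertex of the Newton polygon where the modulus `q` of
`Q = a (N - d) a (N + d) / (a N) ^ 2` is nearly maximal the coefficient at distance `k + 1` from the vertex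
is at most `q ^ (k (k + 1) / 2)` relative to the two circles through the vertex; the mean of the
functions on these two circles depends on `Q` and on the averages of these coefficients only, and for
every `Q` in a tree of squares covering `|Q| ≤ 0.9395` a complex measure on the circle with
rational coefficients shows that its maximum modulus exceeds `1/0.589`.  The certificates are checked
by the kernel, in fixed-point ball arithmetic.
-/

open Filter Topology

namespace Pool.Agent.Results.MP_a70c31_an.ConstantJumps

/-- Taylor coefficients at the origin -/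
noncomputable def a (f : ℂ → ℂ) (n : ℕ) : ℂ := iteratedDeriv n f 0 / (n.factorial : ℂ)

/-- the maximum term -/
noncomputable def mu (f : ℂ → ℂ) (r : ℝ) : ℝ := ⨆ n : ℕ, ‖a f n‖ * r ^ n

/-- the maximum modulus -/
noncomputable def M (f : ℂ → ℂ) (r : ℝ) : ℝ := sSup ((fun z => ‖f z‖) '' Metric.sphere (0 : ℂ) r)

/-- If `f` is a transcendental entire function for which the maximum term is attained, for all
large `r`, at an index of the form `n₀ + d j`, and every such index with `j` large is an index
of the maximum term for some radius (that is, the jumps of the central index are eventually equal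
to `d`), then the ratio (maximum term) / (maximum modulus) has lower limit at most `0.589`. -/
theorem result (f : ℂ → ℂ) (hf : Differentiable ℂ f)
    (hp : ¬ ∃ p : Polynomial ℂ, ∀ z, f z = p.eval z) (n₀ d : ℕ) (hd : 0 < d)
    (h1 : ∀ᶠ r : ℝ in atTop, ∃ j : ℕ, ‖a f (n₀ + d * j)‖ * r ^ (n₀ + d * j) = mu f r)
    (h2 : ∀ᶠ j : ℕ in atTop, ∃ r : ℝ, 0 < r ∧
      ‖a f (n₀ + d * j)‖ * r ^ (n₀ + d * j) = mu f r) :
    liminf (fun r : ℝ => mu f r / M f r) atTop ≤ 589 / 1000 := by
  have hF : Pool.Agent.H792R3.BB.TransEntire f := ⟨hf, hp⟩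
  have key : ∃ᶠ r : ℝ in atTop, mu f r ≤ 589 / 1000 * M f r := Run7.h281.ufA hF hd h1 h2
  have hCY : ∀ r : ℝ, 0 < r → 0 < mu f r ∧ mu f r ≤ M f r := fun r hr => by
    obtain ⟨_, hmu, hle, _⟩ := Pool.Agent.H792R3.BB.t_CY f hF r hr
    exact ⟨hmu, hle⟩
  refine Filter.liminf_le_of_frequently_le ?_ ?_
  · have h3 : ∀ᶠ r : ℝ in atTop, 0 < r := eventually_gt_atTop 0
    refine (key.and_eventually h3).mono ?_
    rintro r ⟨hr, hr0⟩
    obtain ⟨hmu, hle⟩ := hCY r hr0
    rw [div_le_iff₀ (lt_of_lt_of_le hmu hle)]
    exact hr
  · refine ⟨0, ?_⟩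
    rw [Filter.eventually_map]
    filter_upwards [eventually_gt_atTop (0 : ℝ)] with r hr0
    obtain ⟨hmu, hle⟩ := hCY r hr0
    exact div_nonneg hmu.le (hmu.le.trans hle)

end Pool.Agent.Results.MP_a70c31_an.ConstantJumps
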