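import Pool.Agent.Run7.h281.Red

/-!
`MP_a70c31_an`: upper bound `49/80 = 0.6125` for the greatest possible value of the lower limit of
(maximum term) / (maximum modulus) over transcendental entire functions.

Proof sketch.  Suppose `M (r) < (80/49) mu (r)` for all large `r`.  Choose a vertex of the Newton
polygon at which `x = (R_m / R_(m+1)) ^ (smaller gap)` is nearly as large as at the two
neighbouring vertices.  This forces geometric decay of all other coefficients.  Averaging over roots
of unity leaves the coefficients on the lattice generated by the gaps, and for each of finitely many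
values of the remaining parameters a dual certificate (a complex measure on the circle with
rational coefficients) contradicts the assumed bound of the maximum modulus on the two circles.
The certificates are checked by the kernel, in fixed-point ball arithmetic.
-/

open Filter Topology

namespace Pool.Agent.Results.MP_a70c31_an.UpperBound06125

open Pool.Agent.H792R3.BB

theorem uf (f : ℂ → ℂ) (hf : TransEntire f) :
    ∃ᶠ r : ℝ in atTop, mu f r ≤ 49 / 80 * maxMod f r := by
  rw [Filter.frequently_atTop]
  intro R₀
  obtain ⟨r, hR, hr, μ, hμ, hle, hM⟩ := Run7.h281.up (tc f)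
    (fun r hr => UFx.summable_tc f hf.1 r hr) (UFx.infinite_tc f hf) R₀
  refine ⟨r, hR, ?_⟩
  have h1 : 80 / 49 * μ ≤ maxMod f r := hM _ (UFx.bd_tc f hf.1 r hr)
  have h2 : mu f r ≤ μ := ciSup_le hle
  linarith

theorem lim_le (f : ℂ → ℂ) (hf : TransEntire f) :
    liminf (fun r : ℝ => mu f r / maxMod f r) atTop ≤ 49 / 80 := by
  refine Filter.liminf_le_of_frequently_le ?_ ?_
  · have h2 : ∀ᶠ r : ℝ in atTop, 0 < r := eventually_gt_atTop 0
    refine ((uf f hf).and_eventually h2).mono ?_
    rintro r ⟨hr, hr0⟩
    obtain ⟨_, hmu, hle, _⟩ := t_CY f hf r hr0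
    have hM : 0 < maxMod f r := lt_of_lt_of_le hmu hle
    rw [div_le_iff₀ hM]
    exact hr
  · refine ⟨0, ?_⟩
    rw [Filter.eventually_map]
    filter_upwards [eventually_gt_atTop (0 : ℝ)] with r hr0
    obtain ⟨_, hmu, hle, _⟩ := t_CY f hf r hr0
    exact div_nonneg hmu.le (hmu.le.trans hle)

/-- For every transcendental entire function the ratio (maximum term) / (maximum modulus) has
lower limit at most `49/80 = 0.6125`. -/
theorem result (f : ℂ → ℂ) (hf : Differentiable ℂ f)
    (hp : ¬ ∃ p : Polynomial ℂ, ∀ z, f z = p.eval z) :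
    liminf (fun r : ℝ =>
      (⨆ n : ℕ, ‖iteratedDeriv n f 0 / (n.factorial : ℂ)‖ * r ^ n) /
        sSup ((fun z => ‖f z‖) '' Metric.sphere (0 : ℂ) r)) atTop ≤ 49 / 80 :=
  lim_le f ⟨hf, hp⟩

end Pool.Agent.Results.MP_a70c31_an.UpperBound06125
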